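import Pool.Agent.W4.QD.Stms4
import Pool.Agent.W4.CF.Htq

/-!
The height of the points of a line with rational parameter (helper919, for helper4).
-/

set_option autoImplicit false

namespace W919.QD

open NumberField IsDedekindDomain Pool.Agent.W4.CF Pool.Agent.W4.QD

/-- the coefficients of the three points -/
def cK {K : Type} [Field K] (α : Fin 3 → K) : Fin 3 → K := ![α 1 - α 2, α 2 - α 0, α 0 - α 1]

theorem ptK_eq {K : Type} [Field K] (α : Fin 3 → K) (x : K) (j : Fin 3) :
    ptK α x j = (x - α j) * cK α j := by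
  fin_cases j <;> rfl

theorem cK_ne {K : Type} [Field K] {α : Fin 3 → K} (h : Function.Injective α) (j : Fin 3) :
    cK α j ≠ 0 := by
  fin_cases j
  · exact sub_ne_zero.2 (h.ne (by decide))
  · exact sub_ne_zero.2 (h.ne (by decide))
  · exact sub_ne_zero.2 (h.ne (by decide))

theorem fin_bad {K : Type} [Field K] [NumberField K] (z : K) :
    {P : HeightOneSpectrum (𝓞 K) | z ≠ 0 ∧ FinitePlace.mk P z ≠ 1}.Finite := by
  by_cases hz : z = 0
  · simp [hz]
  · have h := FinitePlace.hasFiniteMulSupport hz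
    have hinj : Function.Injective fun P : HeightOneSpectrum (𝓞 K) => FinitePlace.mk P := by
      intro P Q hPQ
      exact FinitePlace.mk_eq_iff.1 hPQ
    refine (Set.Finite.preimage (f := fun P : HeightOneSpectrum (𝓞 K) => FinitePlace.mk P)
      hinj.injOn h).subset ?_
    intro P hP
    exact hP.2

theorem finsum_log {K : Type} [Field K] [NumberField K] {v : ℤ} (hv : v ≠ 0) :
    ∑ᶠ P : HeightOneSpectrum (𝓞 K), -Real.log (FinitePlace.mk P (v : K)) =
      Module.finrank ℚ K * Real.log |(v : ℝ)| := by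
  have hvK : (v : K) ≠ 0 := Int.cast_ne_zero.mpr hv
  rw [finsum_neg_distrib, ← Real.log_finprod (fun P => FinitePlace.pos_iff.mpr hvK)]
  have h5 : ∏ᶠ P : HeightOneSpectrum (𝓞 K), FinitePlace.mk P (v : K) =
      ∏ᶠ w : FinitePlace K, w (v : K) :=
    finprod_comp_equiv (f := fun w : FinitePlace K => w (v : K))
      FinitePlace.equivHeightOneSpectrum.symm
  rw [h5, FinitePlace.prod_eq_inv_abs_norm hvK]
  have h6 : Algebra.norm ℚ (v : K) = (v : ℚ) ^ Module.finrank ℚ K := by
    have h7 : (v : K) = algebraMap ℚ K (v : ℚ) := by simp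
    rw [h7, Algebra.norm_algebraMap]
  rw [h6]
  push_cast
  rw [abs_pow, Real.log_inv, Real.log_pow, neg_neg]

/-- the bound at a finite place -/
noncomputable def bf {K : Type} [Field K] [NumberField K] (α : Fin 3 → K)
    (P : HeightOneSpectrum (𝓞 K)) : ℝ :=
  ∏ j, (max 1 (FinitePlace.mk P (α j)) * max 1 (FinitePlace.mk P (cK α j)))

theorem one_le_bf {K : Type} [Field K] [NumberField K] (α : Fin 3 → K)
    (P : HeightOneSpectrum (𝓞 K)) (j : Fin 3) :
    max 1 (FinitePlace.mk P (α j)) * max 1 (FinitePlace.mk P (cK α j)) ≤ bf α P := by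
  have h1 : ∀ i, 1 ≤ max 1 (FinitePlace.mk P (α i)) * max 1 (FinitePlace.mk P (cK α i)) := by
    intro i
    exact one_le_mul_of_one_le_of_one_le (le_max_left _ _) (le_max_left _ _)
  unfold bf
  rw [← Finset.mul_prod_erase _ _ (Finset.mem_univ j)]
  refine le_mul_of_one_le_right (by linarith [h1 j]) ?_
  have h2 := Finset.prod_le_prod (s := Finset.univ.erase j) (f := fun _ => (1 : ℝ))
    (g := fun i => max 1 (FinitePlace.mk P (α i)) * max 1 (FinitePlace.mk P (cK α i)))
    (fun _ _ => zero_le_one) (fun i _ => h1 i)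
  rwa [Finset.prod_const_one] at h2

theorem bf_pos {K : Type} [Field K] [NumberField K] (α : Fin 3 → K)
    (P : HeightOneSpectrum (𝓞 K)) : 0 < bf α P := by
  refine lt_of_lt_of_le ?_ (one_le_bf α P 0)
  positivity

theorem bf_supp {K : Type} [Field K] [NumberField K] (α : Fin 3 → K) :
    (fun P : HeightOneSpectrum (𝓞 K) => Real.log (bf α P)).HasFiniteSupport := by
  have hfin : (⋃ j : Fin 3, ({P : HeightOneSpectrum (𝓞 K) | α j ≠ 0 ∧ FinitePlace.mk P (α j) ≠ 1} ∪
      {P : HeightOneSpectrum (𝓞 K) | cK α j ≠ 0 ∧ FinitePlace.mk P (cK α j) ≠ 1})).Finite :=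
    Set.finite_iUnion fun j => (fin_bad _).union (fin_bad _)
  refine hfin.subset ?_
  intro P hP
  by_contra hcon
  apply hP
  simp only [Set.mem_iUnion, Set.mem_union, Set.mem_ofPred_eq, not_exists, not_or, not_and,
    not_not] at hcon
  have h1 : ∀ z : K, (z ≠ 0 → FinitePlace.mk P z = 1) → max 1 (FinitePlace.mk P z) = 1 := by
    intro z hz
    by_cases h0 : z = 0
    · rw [h0, map_zero]
      exact max_eq_left zero_le_one
    · rw [hz h0, max_self]
  have h2 : bf α P = 1 := by
    unfold bf
    refine Finset.prod_eq_one fun j _ => ?_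
    rw [h1 _ (hcon j).1, h1 _ (hcon j).2, one_mul]
  show Real.log (bf α P) = 0
  rw [h2, Real.log_one]

theorem t_HTP : S_HTP := by
  intro K _ _ α hα
  have hn : (0 : ℝ) < Module.finrank ℚ K := by exact_mod_cast Module.finrank_pos
  have hn1 : ((Module.finrank ℚ K : ℕ) : ℝ) = ∑ w : InfinitePlace K, (w.mult : ℝ) := by
    rw [← InfinitePlace.sum_mult_eq (K := K)]
    push_cast
    rfl
  set B : InfinitePlace K → ℝ := fun w => ∑ j, (1 + w (α j)) * w (cK α j) with hB
  have hterm : ∀ (w : InfinitePlace K) (j : Fin 3), 0 < (1 + w (α j)) * w (cK α j) := by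
    intro w j
    have h1 : 0 ≤ w (α j) := apply_nonneg _ _
    have h2 : 0 < w (cK α j) := InfinitePlace.pos_iff.2 (cK_ne hα j)
    positivity
  have hBpos : ∀ w, 0 < B w := fun w =>
    Finset.sum_pos (fun j _ => hterm w j) ⟨0, Finset.mem_univ _⟩
  have hBle : ∀ w j, (1 + w (α j)) * w (cK α j) ≤ B w := fun w j =>
    Finset.single_le_sum (f := fun j => (1 + w (α j)) * w (cK α j))
      (fun i _ => (hterm w i).le) (Finset.mem_univ j)
  refine ⟨(∑ w : InfinitePlace K, (w.mult : ℝ) * Real.log (B w) +
    ∑ᶠ P : HeightOneSpectrum (𝓞 K), Real.log (bf α P)) / Module.finrank ℚ K, ?_⟩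
  intro u v huv hv hne
  have hvK : (v : K) ≠ 0 := Int.cast_ne_zero.mpr hv
  have hv0 : (0 : ℝ) < |(v : ℝ)| := abs_pos.mpr (by exact_mod_cast hv)
  set M : ℝ := max |(u : ℝ)| |(v : ℝ)| with hM
  have hM0 : 0 < M := lt_max_of_lt_right hv0
  have hP : ∀ j, ptK α ((u : K) / v) j = ((u : K) - v * α j) * cK α j / v := by
    intro j
    rw [ptK_eq]
    field_simp
  have hPne : ∀ j, ptK α ((u : K) / v) j ≠ 0 := by
    intro j
    rw [hP]
    exact div_ne_zero (mul_ne_zero (hne j) (cK_ne hα j)) hvK
  have hcast : ∀ (w : InfinitePlace K) (z : ℤ), w (z : K) = |(z : ℝ)| := by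
    intro w z
    rw [← InfinitePlace.norm_embedding_eq w, map_intCast, Complex.norm_intCast]
  -- the infinite places
  have hinf : ∑ w : InfinitePlace K, (w.mult : ℝ) * Real.log (max (w (ptK α ((u : K) / v) 0))
      (max (w (ptK α ((u : K) / v) 1)) (w (ptK α ((u : K) / v) 2)))) ≤
      ∑ w : InfinitePlace K, (w.mult : ℝ) * Real.log (B w) +
        Module.finrank ℚ K * (Real.log M - Real.log |(v : ℝ)|) := by
    rw [hn1, Finset.sum_mul, ← Finset.sum_add_distrib]
    refine Finset.sum_le_sum fun w _ => ?_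
    rw [← mul_add]
    refine mul_le_mul_of_nonneg_left ?_ (Nat.cast_nonneg _)
    have h1 : ∀ j, w (ptK α ((u : K) / v) j) ≤ B w * (M / |(v : ℝ)|) := by
      intro j
      rw [hP, map_div₀, map_mul, hcast, mul_div_assoc']
      refine div_le_div_of_nonneg_right ?_ hv0.le
      have h2 : w ((u : K) - v * α j) ≤ M * (1 + w (α j)) := by
        have h3 : w ((u : K) - v * α j) ≤ w (u : K) + w (v * α j) := by
          rw [← InfinitePlace.norm_embedding_eq w ((u : K) - v * α j),
            ← InfinitePlace.norm_embedding_eq w (u : K),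
            ← InfinitePlace.norm_embedding_eq w ((v : K) * α j), map_sub]
          exact norm_sub_le _ _
        rw [map_mul, hcast, hcast] at h3
        have h6 : 0 ≤ w (α j) := apply_nonneg _ _
        have h7 : |(u : ℝ)| ≤ M := le_max_left _ _
        have h8 : |(v : ℝ)| * w (α j) ≤ M * w (α j) :=
          mul_le_mul_of_nonneg_right (le_max_right _ _) h6
        linarith
      have h9 : 0 ≤ w (cK α j) := apply_nonneg _ _
      calc w ((u : K) - v * α j) * w (cK α j) ≤ M * (1 + w (α j)) * w (cK α j) :=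
            mul_le_mul_of_nonneg_right h2 h9
        _ = ((1 + w (α j)) * w (cK α j)) * M := by ring
        _ ≤ B w * M := mul_le_mul_of_nonneg_right (hBle w j) hM0.le
    have hpos : 0 < max (w (ptK α ((u : K) / v) 0))
        (max (w (ptK α ((u : K) / v) 1)) (w (ptK α ((u : K) / v) 2))) :=
      lt_max_of_lt_left (InfinitePlace.pos_iff.2 (hPne 0))
    refine (Real.log_le_log hpos (max_le (h1 0) (max_le (h1 1) (h1 2)))).trans ?_
    rw [Real.log_mul (hBpos w).ne' (by positivity), Real.log_div hM0.ne' hv0.ne']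
  -- the finite places
  have hfin : ∑ᶠ P : HeightOneSpectrum (𝓞 K), Real.log (max (FinitePlace.mk P
      (ptK α ((u : K) / v) 0)) (max (FinitePlace.mk P (ptK α ((u : K) / v) 1))
        (FinitePlace.mk P (ptK α ((u : K) / v) 2)))) ≤
      ∑ᶠ P : HeightOneSpectrum (𝓞 K), Real.log (bf α P) +
        Module.finrank ℚ K * Real.log |(v : ℝ)| := by
    have hsv : (fun P : HeightOneSpectrum (𝓞 K) =>
        -Real.log (FinitePlace.mk P (v : K))).HasFiniteSupport := by
      refine (fin_bad (v : K)).subset ?_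
      intro P hP
      refine ⟨hvK, fun h => hP ?_⟩
      show -Real.log (FinitePlace.mk P (v : K)) = 0
      rw [h, Real.log_one, neg_zero]
    rw [← finsum_log (K := K) hv, ← finsum_add_distrib (bf_supp α) hsv]
    refine finsum_le_finsum' ?_ ?_ ?_
    · have hf : (⋃ j : Fin 3, {P : HeightOneSpectrum (𝓞 K) | ptK α ((u : K) / v) j ≠ 0 ∧
          FinitePlace.mk P (ptK α ((u : K) / v) j) ≠ 1}).Finite :=
        Set.finite_iUnion fun j => fin_bad _
      refine hf.subset ?_
      intro P hP
      by_contra hcon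
      apply hP
      simp only [Set.mem_iUnion, Set.mem_ofPred_eq, not_exists, not_and, not_not] at hcon
      show Real.log _ = 0
      rw [hcon 0 (hPne 0), hcon 1 (hPne 1), hcon 2 (hPne 2), max_self, max_self, Real.log_one]
    · exact Set.Finite.subset ((bf_supp α).union hsv) (Function.support_add _ _)
    · intro P
      show Real.log _ ≤ Real.log (bf α P) + -Real.log (FinitePlace.mk P (v : K))
      have hvP : 0 < FinitePlace.mk P (v : K) := FinitePlace.pos_iff.mpr hvK
      have h1 : ∀ j, FinitePlace.mk P (ptK α ((u : K) / v) j) ≤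
          bf α P / FinitePlace.mk P (v : K) := by
        intro j
        rw [hP, map_div₀, map_mul]
        refine div_le_div_of_nonneg_right ?_ hvP.le
        have h2 : FinitePlace.mk P ((u : K) - v * α j) ≤ max 1 (FinitePlace.mk P (α j)) := by
          have h3 := FinitePlace.add_le (FinitePlace.mk P) (u : K) (-(v * α j))
          rw [← sub_eq_add_neg] at h3
          have h5 : FinitePlace.mk P (-((v : K) * α j)) = FinitePlace.mk P ((v : K) * α j) :=
            map_neg_eq_map _ _
          rw [h5, map_mul] at h3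
          refine h3.trans (max_le_max (fin_int_le P u) ?_)
          exact mul_le_of_le_one_left (apply_nonneg _ _) (fin_int_le P v)
        have h4 : FinitePlace.mk P (cK α j) ≤ max 1 (FinitePlace.mk P (cK α j)) :=
          le_max_right _ _
        exact (mul_le_mul h2 h4 (apply_nonneg _ _) (by positivity)).trans (one_le_bf α P j)
      have hpos : 0 < max (FinitePlace.mk P (ptK α ((u : K) / v) 0))
          (max (FinitePlace.mk P (ptK α ((u : K) / v) 1))
            (FinitePlace.mk P (ptK α ((u : K) / v) 2))) :=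
        lt_max_of_lt_left (FinitePlace.pos_iff.2 (hPne 0))
      refine (Real.log_le_log hpos (max_le (h1 0) (max_le (h1 1) (h1 2)))).trans ?_
      rw [Real.log_div (bf_pos α P).ne' hvP.ne', sub_eq_add_neg]
  unfold htK
  rw [div_le_iff₀ hn, add_mul, div_mul_cancel₀ _ hn.ne']
  refine (add_le_add hinf hfin).trans (le_of_eq ?_)
  ring

end W919.QD
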